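import Pool.Agent.Lib.HC.H.Main
import Pool.Agent.Lib.HC.J.Fld2

/-!
# PROJECT HC, part H: `S_KD` (helper75)
-/

set_option autoImplicit false

open NumberField NumberField.ComplexEmbedding NumberField.InfinitePlace
open scoped ComplexConjugate

noncomputable section

namespace HC

/-- every embedding is `τ ∘ g` -/
theorem emb_eq (X : CMF) (φ : X.K →+* ℂ) : ∃ g : X.G, ∀ x, φ x = X.τ (g x) := by
  obtain ⟨g, hg⟩ := exists_comp_symm_eq_of_comp_eq (k := ℚ) X.τ φ (by ext; simp)
  refine ⟨g.symm, fun x => ?_⟩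
  rw [← hg]
  rfl

theorem conj_emb (X : CMF) (φ : X.K →+* ℂ) (x : X.K) : φ (X.c x) = conj (φ x) := by
  obtain ⟨g, hg⟩ := emb_eq X φ
  rw [hg, hg, ← X.hc]
  have h := DFunLike.congr_fun (X.comm g) x
  have h2 : X.c (g x) = g (X.c x) := h
  rw [h2]

theorem cmf_totallyComplex (X : CMF) : IsTotallyComplex X.K := by
  refine ⟨fun w => ?_⟩
  rw [InfinitePlace.isComplex_iff]
  intro hr
  apply X.ne
  ext x
  apply w.embedding.injective
  have h1 := conj_emb X w.embedding x
  have h2 : conj (w.embedding x) = w.embedding x := RingHom.congr_fun hr x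
  rw [h1, h2]
  rfl

/-- A `CMF` is a CM field. -/
theorem cmf_isCM (X : CMF) : IsCMField X.K := by
  have := cmf_totallyComplex X
  refine IsCMField.of_forall_isConj X.K (σ := X.c) (fun φ => ?_)
  ext x
  exact (conj_emb X φ x).symm

theorem cmf_four (X : CMF) : 4 ≤ Module.finrank ℚ X.K := by
  have := cmf_totallyComplex X
  have h1 := IsTotallyComplex.finrank X.K
  have h2 := X.big
  omega

/-- **The field of `X` is `KD D`.** -/
theorem tKD : S_KD := by
  intro X
  have := cmf_isCM X
  obtain ⟨F, h1, h2, h3, D, e, h4, h5, -, -⟩ := HC.J.fld2 X.K (cmf_four X) X.τ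
  exact ⟨F, h1, h2, h3, D, e, h4, fun v => (h5 v).symm⟩

/-- **Part H from THEOREM T2.** -/
theorem tH (hT2 : CMT.J.T2) : S_H := tH_of tKD hT2

end HC
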