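import Pool.Agent.Lib.HC.Iface
import Pool.Agent.Lib.HC.K.Main
import Pool.Agent.Lib.CMT.D.Cpt

/-!
# PROJECT HC, part H: the classes of the compact ball quotient surfaces (THEOREM T2)
-/

set_option autoImplicit false

open MeasureTheory ComplexConjugate

noncomputable section

namespace HC

open CMT

/-- The field of `X` is `KD D = F(√-Δ)`, `F` totally real. -/
def S_KD : Prop :=
  ∀ X : CMF, ∃ (F : Type) (_ : Field F) (_ : NumberField F) (_ : NumberField.IsTotallyReal F)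
    (D : Dat F) (e : KD D ≃+* X.K), 2 ≤ Module.finrank ℚ F ∧ ∀ v, X.τ (e v) = ev D D.t0 v

section

variable {X : CMF} {F : Type} [Field F] [NumberField F] {D : Dat F} (e : KD D ≃+* X.K)

/-- The embedding `τ ∘ g`. -/
def em (g : X.G) : KD D →+* ℂ := X.τ.comp (g.toRingEquiv.toRingHom.comp e.toRingHom)

theorem em_apply (g : X.G) (v : KD D) : em e g v = X.τ (g (e v)) := rfl

theorem em_inj {g h : X.G} (hgh : em e g = em e h) : g = h := by
  ext x
  apply X.τ.injective
  have h1 := RingHom.congr_fun hgh (e.symm x)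
  rwa [em_apply, em_apply, RingEquiv.apply_symm_apply] at h1

theorem em_surj (σ : KD D →+* ℂ) : ∃ g : X.G, em e g = σ := by
  obtain ⟨g, hg⟩ := NumberField.ComplexEmbedding.exists_comp_symm_eq_of_comp_eq (k := ℚ) X.τ
    (σ.comp e.symm.toRingHom) (Subsingleton.elim _ _)
  refine ⟨g.symm, ?_⟩
  ext v
  have h1 := RingHom.congr_fun hg (e v)
  have h2 : (σ.comp e.symm.toRingHom) (e v) = σ v := by
    show σ (e.symm (e v)) = σ v
    rw [RingEquiv.symm_apply_apply]
  rw [h2] at h1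
  exact h1

/-- The element of `G` of an embedding. -/
def gof (σ : KD D →+* ℂ) : X.G := Classical.choose (em_surj e σ)

theorem em_gof (σ : KD D →+* ℂ) : em e (gof e σ) = σ := Classical.choose_spec (em_surj e σ)

theorem gof_em (g : X.G) : gof e (em e g) = g := em_inj e (em_gof e _)

theorem gof_cjt (σ : KD D →+* ℂ) : gof e (CMT.J.cjt D σ) = X.c * gof e σ := by
  apply em_inj e
  rw [em_gof]
  ext v
  show conj (σ v) = X.τ (X.c (gof e σ (e v)))
  rw [X.hc, ← em_apply, em_gof]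

theorem ind_add (Φ : Ty X) (g : X.G) : Φ.ind g + Φ.ind (X.c * g) = 1 := by
  unfold Ty.ind
  by_cases h : g ∈ Φ.S
  · rw [if_pos h, if_neg ((Φ.cm g).1 h)]
  · rw [if_neg h, if_pos (Ty.cmem h)]

end

theorem z_pos {X : CMF} {ι : Type} {f : ι → Ty X} {T : AV} (C : Crd f T) (i : ι) (g : X.G) (h : g ∈ (f i).S)
    (v : T.V) : C.z (i, g) v = C.ψ v ⟨i, g, h⟩ := by
  unfold Crd.z
  rw [dif_pos h]
  rfl

theorem z_neg {X : CMF} {ι : Type} {f : ι → Ty X} {T : AV} (C : Crd f T) (i : ι) (g : X.G) (h : g ∉ (f i).S)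
    (v : T.V) : C.z (i, g) v = conj (C.ψ v ⟨i, X.c * g, Ty.cmem h⟩) := by
  unfold Crd.z
  rw [dif_neg h]
  rfl

/-- **Part H.** -/
theorem tH_of (hKD : S_KD) (hT2 : CMT.J.T2) : S_H := by
  classical
  intro X f h1 hsum T C
  obtain ⟨F, _, _, _, D, e, hF, he⟩ := hKD X
  haveI : NumberField X.K := X.nf
  have : Finite X.G := inferInstance
  have : ∀ i, Finite (f i).S := fun i => inferInstance
  haveI : Fintype ((i : Fin 4) × (f i).S) := Fintype.ofFinite _
  have hem1 : em e 1 = ev D D.t0 := by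
    ext v
    exact he v
  have hgof1 : gof e (ev D D.t0) = 1 := by rw [← hem1, gof_em]
  obtain ⟨G, lam, w, hG, -, hfree, hdisc, hcpt, hlam, -, hw, hper, ⟨χ, hχ⟩, hne⟩ :=
    hT2 F hF D (fun σ => by
      refine ⟨(e.trans (gof e σ).toRingEquiv).trans e.symm, ?_⟩
      ext v
      have h2 : em e (gof e σ) v = σ v := by rw [em_gof]
      rw [← h2, ← hem1]
      show X.τ (gof e σ (e v)) = X.τ (e (e.symm (gof e σ (e v))))
      rw [RingEquiv.apply_symm_apply])
      (fun i σ => (f i).ind (gof e σ))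
      (fun i σ => by rw [gof_cjt]; exact ind_add _ _)
      (fun i => by
        show (f i).ind (gof e (ev D D.t0)) = 1
        rw [hgof1]
        unfold Ty.ind
        rw [if_pos (h1 i)])
      (fun σ => hsum (gof e σ))
  have hind : ∀ i (g : X.G), g ∈ (f i).S → (f i).ind (gof e (em e g)) = 1 := by
    intro i g hg
    rw [gof_em]
    unfold Ty.ind
    rw [if_pos hg]
  have hgrp : Grp D G := ⟨fun g hg => (hG.1 hg).1, hfree, hdisc, hcpt⟩
  -- the map
  let W : ℂ × ℂ → T.V := fun z => ∑ s : (i : Fin 4) × (f i).S, w s.1 (em e s.2.1) z • C.ψ.symm (Pi.single s 1)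
  have hWψ : ∀ z s, C.ψ (W z) s = w s.1 (em e s.2.1) z := by
    intro z s
    show C.ψ (∑ s : (i : Fin 4) × (f i).S, w s.1 (em e s.2.1) z • C.ψ.symm (Pi.single s 1)) s = _
    rw [map_sum, Finset.sum_apply, Finset.sum_eq_single s]
    · rw [map_smul, LinearEquiv.apply_symm_apply, Pi.smul_apply, Pi.single_eq_same, smul_eq_mul, mul_one]
    · intro b _ hb
      rw [map_smul, LinearEquiv.apply_symm_apply, Pi.smul_apply, Pi.single_eq_of_ne hb.symm, smul_zero]
    · intro h
      exact absurd (Finset.mem_univ _) h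
  have hWd : DifferentiableOn ℂ W (Ball D) := by
    refine DifferentiableOn.fun_sum fun s _ => ?_
    exact (hw s.1 (em e s.2.1) (hind s.1 s.2.1 s.2.2)).smul_const _
  have hWper : ∀ g ∈ G, ∀ z ∈ Ball D, W (CMT.act D g z) - W z ∈ T.L := by
    intro g hg z hz
    rw [C.lat]
    refine ⟨fun i => e (lam i ⟨g, hg⟩), fun i => ?_, fun i s => ?_⟩
    · exact (CMT.Cpt.isIntegral_rint D (hlam i ⟨g, hg⟩)).map (e.toRingHom.toIntAlgHom)
    · rw [map_sub, Pi.sub_apply, hWψ, hWψ, hper i (em e s.1) (hind i s.1 s.2) ⟨g, hg⟩ z hz, add_sub_cancel_left]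
      rfl
  have hc : ∀ i, X.c ∉ (f i).S := by
    intro i
    have h2 := ((f i).cm 1).1 (h1 i)
    rwa [mul_one] at h2
  have hz0 : ∀ i, ∀ z, C.z (i, 1) (W z) = w i (ev D D.t0) z := by
    intro i z
    rw [z_pos C i 1 (h1 i), hWψ, hem1]
  have hzc : ∀ i, ∀ z, C.z (i, X.c) (W z) = conj (w i (ev D D.t0) z) := by
    intro i z
    rw [z_neg C i X.c (hc i), hWψ]
    show conj (w i (em e (X.c * X.c)) z) = _
    rw [X.cc, hem1]
  have hwd : ∀ i, DifferentiableOn ℂ (w i (ev D D.t0)) (Ball D) := by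
    intro i
    rw [← hem1]
    exact hw i _ (hind i 1 (h1 i))
  exact K_main D G hgrp W hWd hWper ![C.z (0, 1), C.z (1, 1), C.z (2, X.c), C.z (3, X.c)]
    (fun i => w i (ev D D.t0)) hwd (fun z _ => hz0 0 z) (fun z _ => hz0 1 z) (fun z _ => hzc 2 z) (fun z _ => hzc 3 z)
    hχ (hne χ hχ)

end HC
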